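import Pool.Agent.H14.ENR.Stmts4

set_option autoImplicit false

/-!
Row GP4 of board enr (helper12).
-/

namespace Pool.ENR

open Pool.Agent.H81.ENG Pool.Agent.H55.NEU

theorem gp4_not_comm (F : Type) [Field F] : ¬ ∀ a c : PS F, a * c = c * a := by
  intro h
  have h1 := h (pr (uu (1 : F))) (pr (vv (1 : F)))
  rw [← map_mul, ← map_mul, pr_eq_iff] at h1
  obtain ⟨r, _, h2⟩ := h1
  have h3 := h2 0 1
  have h4 := h2 0 0
  rw [mul_01, mul_01] at h3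
  rw [mul_00, mul_00] at h4
  have e1 : (uu (1 : F)) 0 0 = 1 := rfl
  have e2 : (uu (1 : F)) 0 1 = 1 := rfl
  have e3 : (uu (1 : F)) 1 0 = 0 := rfl
  have e4 : (uu (1 : F)) 1 1 = 1 := rfl
  have e5 : (vv (1 : F)) 0 0 = 1 := rfl
  have e6 : (vv (1 : F)) 0 1 = 0 := rfl
  have e7 : (vv (1 : F)) 1 0 = 1 := rfl
  have e8 : (vv (1 : F)) 1 1 = 1 := rfl
  rw [e1, e2, e4, e5, e6, e8] at h3
  rw [e1, e2, e3, e5, e6, e7] at h4
  have h5 : r = 1 := by
    have : (1 : F) = r := by simpa using h3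
    exact this.symm
  rw [h5] at h4
  have h6 : (1 : F) = 0 := by linear_combination -h4
  exact one_ne_zero h6

theorem gp4_conj {G : Type} [Group G] (e s : G) (n : ℕ) :
    (e * s * e⁻¹) ^ n = 1 ↔ s ^ n = 1 := by
  rw [conj_pow]
  constructor
  · intro h
    have h1 : e * s ^ n = e := by
      have h2 := mul_inv_eq_one.mp h
      exact h2
    exact mul_eq_left.mp h1
  · intro h
    rw [h, mul_one, mul_inv_cancel]

theorem gp4_thm (hINV : INVStmt) (hSCJ : SCJStmt) (hSE1 : SE1Stmt) (hSY4 : SY4Stmt)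
    (hSWF : SWFStmt) (hIOT : IOTStmt) (hTOR : TORStmt) (hCNU : CNUStmt) (hSMO : SMOStmt) :
    GP4Stmt := by
  intro F _ _ r f hr _ hr4 hf hq hsimple σ N m hN hm
  left
  classical
  have hr0 : r.Prime := hr.out
  have h2r : (2 : ℕ) ≠ r := by
    intro h
    rw [← h] at hr4
    omega
  have hq4 : Nat.card F % 4 = 1 := by
    rw [hq, Nat.pow_mod, hr4, one_pow]
    rfl
  have h20 : (2 : F) ≠ 0 := by
    intro h
    have h1 : ((2 : ℕ) : F) = 0 := by exact_mod_cast h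
    have h3 := (CharP.cast_eq_zero_iff F r 2).mp h1
    exact h2r ((Nat.prime_dvd_prime_iff_eq hr0 Nat.prime_two).mp h3).symm
  have hex : ∃ k : ℕ, σ ^ (2 ^ k) = 1 := ⟨N, hN⟩
  set k := Nat.find hex with hk
  have hk1 : σ ^ (2 ^ k) = 1 := Nat.find_spec hex
  have hmk : m < k := by
    by_contra hlt
    have h3 : 2 ^ m = 2 ^ k * 2 ^ (m - k) := by
      rw [← pow_add]
      congr 1
      omega
    apply hm
    rw [h3, pow_mul, hk1, one_pow]
  obtain ⟨M, hM⟩ : ∃ M, k = M + 1 := ⟨k - 1, by omega⟩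
  have hM1 : σ ^ (2 ^ (M + 1)) = 1 := by rw [← hM]; exact hk1
  have hM2 : σ ^ (2 ^ M) ≠ 1 := Nat.find_min hex (by omega)
  refine hSMO (PS F) 2 m M σ (by omega) ?_
  rcases Nat.eq_zero_or_pos M with hM0 | hMpos
  · subst hM0
    refine hINV (PS F) σ hsimple (gp4_not_comm F) ?_ ?_
    · simpa using hM1
    · simpa using hM2
  · obtain ⟨h, hh⟩ := hSY4 F r f (M + 1) σ hf hq hq4 hM1
    refine hSCJ (PS F) 2 M σ (MulAut.conj h) ?_
    set σ₁ : MulAut (PS F) := MulAut.conj h * σ * (MulAut.conj h)⁻¹ with hσ₁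
    have h1a : σ₁ ^ (2 ^ (M + 1)) = 1 := (gp4_conj _ _ _).mpr hM1
    have h1b : σ₁ ^ (2 ^ M) ≠ 1 := fun h3 => hM2 ((gp4_conj _ _ _).mp h3)
    by_cases hU : ∀ x, x ∈ UU F ↔ σ₁ x ∈ UU F
    · exact hSE1 F 2 r f (M + 1) M σ₁ Nat.prime_two h2r hf hq h1a h1b hU
    · obtain ⟨b, a, hs⟩ := hSWF F σ₁ hh hU
      refine hSCJ (PS F) 2 M σ₁ (MulAut.conj (pr (uu b))) ?_
      set σ₂ : MulAut (PS F) :=
        MulAut.conj (pr (uu b)) * σ₁ * (MulAut.conj (pr (uu b)))⁻¹ with hσ₂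
      have h2a : σ₂ ^ (2 ^ (M + 1)) = 1 := (gp4_conj _ _ _).mpr h1a
      have h2b : σ₂ ^ (2 ^ M) ≠ 1 := fun h3 => h1b ((gp4_conj _ _ _).mp h3)
      obtain ⟨i, hi, hfix⟩ := hIOT F r hr4
      by_cases hφ : (fld σ₁) ^ (2 ^ M) = 1
      · exact hCNU F i M σ₂ a (fld σ₁) h20 hi hfix hs hMpos h2a h2b hφ
      · exact hTOR F i M σ₂ a (fld σ₁) h20 hi hfix hs hMpos h2a hφ

end Pool.ENR
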