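import Pool.Agent.H36.ENR.Stmts2

set_option autoImplicit false

/-!
Row PCA of board enr (helper12).
-/

namespace Pool.ENR

open Pool.Agent.H81.ENG Pool.Agent.H55.NEU

theorem pca_thm : PCAStmt := by
  intro F _ _ p r f a hp hr hq hp2 hpr ha hd hnd hcard
  have hpp : p.Prime := hp.out
  have hrr : r.Prime := hr.out
  have h1 : Nat.card (PS F) * Nat.card (Subgroup.center (SL2 F)) =
      Nat.card F * (Nat.card F ^ 2 - 1) := card_PS
  have h2 : p ^ (a + 1) ∣ Nat.card F * (Nat.card F ^ 2 - 1) := by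
    rw [← h1]
    exact Dvd.dvd.mul_right hcard _
  have h3 : Nat.card F ^ 2 - 1 = (Nat.card F + 1) * (Nat.card F - 1) := by
    have h4 := Nat.sq_sub_sq (Nat.card F) 1
    rw [one_pow] at h4
    exact h4
  have hpd : p ∣ Nat.card F + 1 := (dvd_pow_self p (by omega)).trans hd
  have hc1 : Nat.Coprime (p ^ (a + 1)) (Nat.card F) := by
    apply Nat.Coprime.pow_left
    rw [hq]
    apply Nat.Coprime.pow_right
    exact (Nat.coprime_primes hpp hrr).mpr hpr
  have hq1 : 1 ≤ Nat.card F := Nat.card_pos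
  have hc2 : Nat.Coprime (p ^ (a + 1)) (Nat.card F - 1) := by
    apply Nat.Coprime.pow_left
    rw [Nat.Prime.coprime_iff_not_dvd hpp]
    intro h5
    have h6 : p ∣ (Nat.card F + 1) - (Nat.card F - 1) := Nat.dvd_sub hpd h5
    have h7 : (Nat.card F + 1) - (Nat.card F - 1) = 2 := by omega
    rw [h7] at h6
    exact hp2 ((Nat.prime_dvd_prime_iff_eq hpp Nat.prime_two).mp h6)
  rw [h3] at h2
  have h8 : p ^ (a + 1) ∣ (Nat.card F + 1) * (Nat.card F - 1) :=
    Nat.Coprime.dvd_of_dvd_mul_left hc1 h2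
  exact hnd (Nat.Coprime.dvd_of_dvd_mul_right hc2 h8)

end Pool.ENR
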